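import Pool.Agent.Lib.MP_3e612f_nt.NF.Q.Dec

/-! Frequencies of a compact set of rotations. -/

set_option autoImplicit false

namespace Pool.Agent.Lib.MP_3e612f_nt.NF

open Finset
open Pool.Agent.Lib.MP_3e612f_nt.MR (mu ex)

open scoped Pointwise in
/-- A compact set of reals: the set of its integer translates is closed. -/
theorem fr_of_cpt {T : Set ℝ} (hT : IsCompact T) : Fr T = {x : ℝ | ∃ y ∈ T, ∃ z : ℤ, x = y + z} := by
  have hZ : IsClosed (Set.range (fun z : ℤ => (z : ℝ))) := Int.isClosedEmbedding_coe_real.isClosed_range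
  have h1 : {x : ℝ | ∃ y ∈ T, ∃ z : ℤ, x = y + z} = T + Set.range (fun z : ℤ => (z : ℝ)) := by
    ext x
    simp only [Set.mem_ofPred_eq, Set.mem_add, Set.mem_range]
    constructor
    · rintro ⟨y, hy, z, rfl⟩
      exact ⟨y, hy, z, ⟨z, rfl⟩, rfl⟩
    · rintro ⟨y, hy, _, ⟨z, rfl⟩, rfl⟩
      exact ⟨y, hy, z, rfl⟩
  unfold Fr
  rw [h1]
  exact (hZ.add_left_of_isCompact hT).closure_eq

/-- The frequency set of a continuous family over a compact set: `{m · p₀(g y) : S y = y}` is compact (`M.p 0` is continuous on `G = LL G 0`), so the set of its translates by integers is closed: `Fr` of it is this set; it is null if the compact set is null, and contains no rational number if the compact set does not. (`k ≥ 1`.) -/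
theorem fr_cpt {G : Type} [Group G] [TopologicalSpace G] [IsTopologicalGroup G] {Γ : Subgroup G} {k : ℕ} (M : Mal G Γ k) (hk : 1 ≤ k)
    {Y : Type} [MetricSpace Y] [CompactSpace Y] (S : Y → Y) (hS : Continuous S) (g : Y → G) (hg : Continuous g) (m : M.I 0 → ℤ)
    (h0 : MeasureTheory.volume {x : ℝ | ∃ y, S y = y ∧ x = dot m (M.p 0 (g y))} = 0) (hq : ∀ y, S y = y → ∀ q : ℚ, dot m (M.p 0 (g y)) ≠ q) :
    MeasureTheory.volume (Fr {x | ∃ y, S y = y ∧ x = dot m (M.p 0 (g y))}) = 0 ∧ ∀ q : ℚ, (q : ℝ) ∉ Fr {x | ∃ y, S y = y ∧ x = dot m (M.p 0 (g y))} := by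
  have hp : Continuous (M.p 0) := by
    rw [← continuousOn_univ]
    exact (M.p_cont 0 hk).mono fun x _ => LL_zero x
  have hd : Continuous (fun y => dot m (M.p 0 (g y))) := by
    unfold dot
    have h2 := hp.comp hg
    refine continuous_finsetSum _ fun i _ => continuous_const.mul ?_
    exact (continuous_apply i).comp h2
  have hc : IsCompact {x : ℝ | ∃ y, S y = y ∧ x = dot m (M.p 0 (g y))} := by
    have h3 : IsCompact {y : Y | S y = y} := (isClosed_eq hS continuous_id).isCompact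
    have h4 := h3.image hd
    have h5 : {x : ℝ | ∃ y, S y = y ∧ x = dot m (M.p 0 (g y))} = (fun y => dot m (M.p 0 (g y))) '' {y : Y | S y = y} := by
      ext x
      simp only [Set.mem_ofPred_eq, Set.mem_image]
      constructor
      · rintro ⟨y, hy, rfl⟩
        exact ⟨y, hy, rfl⟩
      · rintro ⟨y, hy, rfl⟩
        exact ⟨y, hy, rfl⟩
    rw [h5]
    exact h4
  rw [fr_of_cpt hc]
  constructor
  · have h5 : {x : ℝ | ∃ y ∈ {x : ℝ | ∃ y, S y = y ∧ x = dot m (M.p 0 (g y))}, ∃ z : ℤ, x = y + z}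
        ⊆ ⋃ z : ℤ, (fun x => x + (-(z : ℝ))) ⁻¹' {x : ℝ | ∃ y, S y = y ∧ x = dot m (M.p 0 (g y))} := by
      rintro x ⟨y, hy, z, rfl⟩
      rw [Set.mem_iUnion]
      refine ⟨z, ?_⟩
      rw [Set.mem_preimage]
      simpa using hy
    refine MeasureTheory.measure_mono_null h5 (MeasureTheory.measure_iUnion_null fun z => ?_)
    rw [MeasureTheory.measure_preimage_add_right]
    exact h0
  · rintro q ⟨x, ⟨y, hy, rfl⟩, z, hz⟩
    refine hq y hy (q - z) ?_
    push_cast
    linarith

end Pool.Agent.Lib.MP_3e612f_nt.NF
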