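import Pool.Agent.Lib.MP_3e612f_nt.NF.Q.Dec

/-! Orbits near the fixed points of the base (skew products). -/

set_option autoImplicit false

namespace Pool.Agent.Lib.MP_3e612f_nt.NF

open Finset
open Pool.Agent.Lib.MP_3e612f_nt.MR (mu ex)

/-- the skew product `T(y, x) = (S y, g(y) x)` -/
def skew {Y G : Type} [Group G] (S : Y → Y) (g : Y → G) (p : Y × G) : Y × G := (S p.1, g p.1 * p.2)

theorem skew_cont {Y G : Type} [Group G] [TopologicalSpace Y] [TopologicalSpace G] [IsTopologicalGroup G] {S : Y → Y} (hS : Continuous S) {g : Y → G} (hg : Continuous g) :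
    Continuous (skew S g) :=
  (hS.comp continuous_fst).prodMk ((hg.comp continuous_fst).mul continuous_snd)

/-- The orbit of a point over a fixed point. -/
theorem skew_iter_fix {Y G : Type} [Group G] {S : Y → Y} {g : Y → G} {y : Y} (hy : S y = y) (h : ℕ) (r : G) :
    (skew S g)^[h] (y, r) = (y, g y ^ h * r) := by
  induction h with
  | zero => simp
  | succ h ih =>
    rw [Function.iterate_succ_apply', ih, pow_succ', mul_assoc]
    unfold skew
    rw [hy]

/-- Tube lemma: a strict inequality for all `r ∈ D` holds near `y`. -/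
theorem tube_lt {Y G : Type} [TopologicalSpace Y] [TopologicalSpace G] {Φ : Y × G → ℝ} (hΦ : Continuous Φ) {D : Set G} (hD : IsCompact D) {ε : ℝ} {y : Y}
    (h : ∀ r ∈ D, Φ (y, r) < ε) : ∀ᶠ z in nhds y, ∀ r ∈ D, Φ (z, r) < ε := by
  refine hD.eventually_forall_of_forall_eventually fun r hr => ?_
  exact (isOpen_lt hΦ continuous_const).mem_nhds (h r hr)

/-- Near a fixed point: `T^h (y*, r) = (y*, g(y*)^h r)`; by continuity of `T^h` and the tube lemma on the compact set `D` there is a neighbourhood of `y*` on which `|F(T^h(y, r)) - F(y*, g(y*)^h r)| < ε` for all `r ∈ D`, `h ≤ H`; `U` = the union of these (open) neighbourhoods. -/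
theorem near_fix {Y G : Type} [Group G] [TopologicalSpace Y] [TopologicalSpace G] [IsTopologicalGroup G] {S : Y → Y} (hS : Continuous S) {g : Y → G} (hg : Continuous g)
    {F : Y × G → ℂ} (hF : Continuous F) (D : Set G) (hD : IsCompact D) (H : ℕ) (ε : ℝ) (hε : 0 < ε) :
    ∃ U : Set Y, IsOpen U ∧ (∀ y, S y = y → y ∈ U) ∧ ∀ y ∈ U, ∃ y', S y' = y' ∧ ∀ r ∈ D, ∀ h ≤ H, ‖F ((skew S g)^[h] (y, r)) - F (y', g y' ^ h * r)‖ ≤ ε := by
  refine ⟨{y | ∃ y', S y' = y' ∧ ∀ h ∈ Set.Iic H, ∀ r ∈ D, ‖F ((skew S g)^[h] (y, r)) - F (y', g y' ^ h * r)‖ < ε}, ?_, ?_, ?_⟩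
  · rw [isOpen_iff_mem_nhds]
    rintro y ⟨y', hy', hy⟩
    have h1 : ∀ᶠ z in nhds y, ∀ h ∈ Set.Iic H, ∀ r ∈ D, ‖F ((skew S g)^[h] (z, r)) - F (y', g y' ^ h * r)‖ < ε := by
      rw [Filter.eventually_all_finite (Set.finite_Iic H)]
      intro h hh
      have hc : Continuous fun p : Y × G => ‖F ((skew S g)^[h] (p.1, p.2)) - F (y', g y' ^ h * p.2)‖ := by
        have c1 : Continuous ((skew S g)^[h]) := (skew_cont hS hg).iterate h
        have c2 : Continuous fun p : Y × G => (y', g y' ^ h * p.2) :=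
          continuous_const.prodMk (continuous_const.mul continuous_snd)
        exact ((hF.comp (c1.comp (continuous_fst.prodMk continuous_snd))).sub (hF.comp c2)).norm
      exact tube_lt hc hD (hy h hh)
    exact h1.mono fun z hz => ⟨y', hy', hz⟩
  · intro y hy
    refine ⟨y, hy, fun h _ r _ => ?_⟩
    rw [skew_iter_fix hy, sub_self, norm_zero]
    exact hε
  · rintro y ⟨y', hy', hy⟩
    exact ⟨y', hy', fun r hr h hh => (hy h hh r hr).le⟩

theorem skew_iter_right {Y G : Type} [Group G] {S : Y → Y} {g : Y → G} (h : ℕ) (y : Y) (x γ : G) :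
    (skew S g)^[h] (y, x * γ) = (((skew S g)^[h] (y, x)).1, ((skew S g)^[h] (y, x)).2 * γ) := by
  induction h with
  | zero => rfl
  | succ h ih =>
    rw [Function.iterate_succ_apply', Function.iterate_succ_apply', ih]
    unfold skew
    dsimp only
    rw [mul_assoc]

/-- `F(T^h (y, x))` is right `Γ`-invariant in `x`: `T^h (y, x γ)` has second coordinate that of `T^h (y, x)` times `γ`. -/
theorem skew_right {Y G : Type} [Group G] {Γ : Subgroup G} {S : Y → Y} {g : Y → G} {F : Y × G → ℂ} (hΓ : ∀ y x, ∀ γ ∈ Γ, F (y, x * γ) = F (y, x)) (h : ℕ) (y : Y) (x : G)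
    (γ : G) (hγ : γ ∈ Γ) : F ((skew S g)^[h] (y, x * γ)) = F ((skew S g)^[h] (y, x)) := by
  rw [skew_iter_right, hΓ _ _ γ hγ]

/-- Finitely many fibre functions suffice: compactness of the set of fixed points (closed in the compact space `Y`) and of `D`. -/
theorem finite_fibres {Y G : Type} [Group G] [TopologicalSpace Y] [CompactSpace Y] [T2Space Y] [TopologicalSpace G] {S : Y → Y} (hS : Continuous S)
    {F : Y × G → ℂ} (hF : Continuous F) (D : Set G) (hD : IsCompact D) (ε : ℝ) (hε : 0 < ε) :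
    ∃ Z : Finset Y, (∀ y ∈ Z, S y = y) ∧ ∀ y, S y = y → ∃ z ∈ Z, ∀ r ∈ D, ‖F (y, r) - F (z, r)‖ ≤ ε := by
  have hfix : IsCompact {y : Y | S y = y} := (isClosed_eq hS continuous_id).isCompact
  obtain ⟨Z, hZ1, hZ2⟩ := hfix.elim_nhds_subcover
    (fun z => {y : Y | ∀ r ∈ D, ‖F (y, r) - F (z, r)‖ < ε}) (by
      intro z _
      have hc : Continuous fun p : Y × G => ‖F (p.1, p.2) - F (z, p.2)‖ :=
        ((hF.comp (continuous_fst.prodMk continuous_snd)).sub
          (hF.comp (continuous_const.prodMk continuous_snd))).norm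
      refine tube_lt hc hD fun r _ => ?_
      rw [sub_self, norm_zero]
      exact hε)
  refine ⟨Z, hZ1, fun y hy => ?_⟩
  obtain ⟨z, hz, hyz⟩ := Set.mem_iUnion₂.1 (hZ2 hy)
  exact ⟨z, hz, fun r hr => (hyz r hr).le⟩

end Pool.Agent.Lib.MP_3e612f_nt.NF
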