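import Pool.Agent.Lib.MP_3e612f_nt.NF.P.LogCes

/-! Rare visits: logarithmic density (skew products). -/

set_option autoImplicit false

namespace Pool.Agent.Lib.MP_3e612f_nt.NF

open Finset
open Pool.Agent.Lib.MP_3e612f_nt.MR (mu ex)

open scoped Classical in
/-- `B n` = the orbit is outside the open set `U` at time `n`. By hypothesis each block of length `L = N₀(ε/8)` contains at most `(ε/8) L` bad times; so `∑_{n<x} 1_B(n) ≤ (ε/8)(x + L) ≤ (ε/4) x` for `x ≥ L`; `log_of_ces` with `H = 1`. -/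
theorem bad_log {Y : Type} (S : Y → Y) (U : Set Y) (ε : ℝ) (hε : 0 < ε) (hU : ∀ ε' : ℝ, 0 < ε' → ∃ N₀ : ℕ, ∀ N : ℕ, N₀ ≤ N → ∀ y : Y,
      ((((range N).filter (fun n => S^[n] y ∉ U)).card : ℕ) : ℝ) ≤ ε' * N) :
    ∃ N₁ : ℕ, ∀ N : ℕ, N₁ ≤ N → ∀ y : Y, ∑ n ∈ (Icc 1 N).filter (fun n => S^[n] y ∉ U), 1 / (n : ℝ) ≤ ε * Real.log N := by
  obtain ⟨N₀, h0⟩ := hU (ε / 4) (by positivity)
  obtain ⟨N₁, h1⟩ := log_of_ces (ε / 4) 1 (by positivity) le_rfl N₀
  refine ⟨N₁, fun N hN y => ?_⟩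
  have h2 := h1 N hN (fun n => if S^[n] y ∉ U then 1 else 0) (fun n => by split_ifs <;> norm_num) (fun x hx => by
    have h3 := h0 x hx y
    rw [← Finset.sum_filter, Finset.sum_const, nsmul_eq_mul, mul_one, mul_one]
    exact h3)
  rw [Finset.sum_filter]
  have h4 : 4 * (ε / 4) * 1 * Real.log N = ε * Real.log N := by ring
  rw [h4] at h2
  refine le_trans (le_of_eq (Finset.sum_congr rfl fun n _ => ?_)) h2
  split_ifs <;> simp

end Pool.Agent.Lib.MP_3e612f_nt.NF
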