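import Pool.Agent.Lib.MP_3e612f_nt.NF.Base

/-! Local averages and rare visits, ordinary averages (skew products). -/

set_option autoImplicit false

namespace Pool.Agent.Lib.MP_3e612f_nt.NF

open Finset
open Pool.Agent.Lib.MP_3e612f_nt.MR (mu ex)

theorem CesS_one (b : ℕ → ℂ) (hb : ∀ n, ‖b n‖ ≤ 1) (N : ℕ) :
    ‖∑ n ∈ Icc 1 N, b n - ∑ n ∈ Icc 1 N, b (n + 1)‖ ≤ 2 := by
  have h1 : ∑ n ∈ Icc 1 N, b n - ∑ n ∈ Icc 1 N, b (n + 1) = b 1 - b (N + 1) := by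
    induction N with
    | zero => simp
    | succ N ih =>
      rw [Finset.sum_Icc_succ_top (by omega), Finset.sum_Icc_succ_top (by omega)]
      linear_combination ih
  rw [h1]
  refine (norm_sub_le _ _).trans ?_
  have h2 := hb 1
  have h3 := hb (N + 1)
  linarith

theorem CesS_shift (b : ℕ → ℂ) (hb : ∀ n, ‖b n‖ ≤ 1) (N h : ℕ) :
    ‖∑ n ∈ Icc 1 N, b n - ∑ n ∈ Icc 1 N, b (n + h)‖ ≤ 2 * h := by
  induction h with
  | zero => simp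
  | succ h ih =>
    have h1 := CesS_one (fun n => b (n + h)) (fun n => hb _) N
    have h2 : ∑ n ∈ Icc 1 N, b n - ∑ n ∈ Icc 1 N, b (n + (h + 1)) =
        (∑ n ∈ Icc 1 N, b n - ∑ n ∈ Icc 1 N, b (n + h)) +
        (∑ n ∈ Icc 1 N, b (n + h) - ∑ n ∈ Icc 1 N, b (n + 1 + h)) := by
      rw [sub_add_sub_cancel]
      congr 1
      refine Finset.sum_congr rfl fun n _ => ?_
      rw [add_assoc n 1 h, add_comm 1 h]
    rw [h2]
    refine (norm_add_le _ _).trans ?_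
    push_cast
    linarith

/-- `∑_{n≤N} a(n) = (1/H) ∑_{h=1}^H ∑_{n≤N} a(n+h) + O(2H)`. -/
theorem local_avg_o (H : ℕ) (hH : 1 ≤ H) (a : ℕ → ℂ) (ha : ∀ n, ‖a n‖ ≤ 1) (N : ℕ) :
    ‖∑ n ∈ Icc 1 N, a n‖ ≤ ∑ n ∈ Icc 1 N, ‖∑ h ∈ Icc 1 H, a (n + h)‖ / H + 2 * H := by
  have hH0 : (0 : ℝ) < H := by exact_mod_cast hH
  have h1 : (H : ℂ) * ∑ n ∈ Icc 1 N, a n = ∑ h ∈ Icc 1 H, (∑ n ∈ Icc 1 N, a n - ∑ n ∈ Icc 1 N, a (n + h)) +
      ∑ n ∈ Icc 1 N, ∑ h ∈ Icc 1 H, a (n + h) := by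
    rw [Finset.sum_sub_distrib, Finset.sum_const, Nat.card_Icc, Nat.add_sub_cancel, nsmul_eq_mul,
      Finset.sum_comm (s := Icc 1 N) (t := Icc 1 H)]
    ring
  have h3 : ‖∑ h ∈ Icc 1 H, (∑ n ∈ Icc 1 N, a n - ∑ n ∈ Icc 1 N, a (n + h))‖ ≤ H * (2 * H) := by
    refine (norm_sum_le _ _).trans ?_
    have h4 : ∑ h ∈ Icc 1 H, ‖∑ n ∈ Icc 1 N, a n - ∑ n ∈ Icc 1 N, a (n + h)‖ ≤ ∑ h ∈ Icc 1 H, (2 * (H : ℝ)) := by
      refine Finset.sum_le_sum fun h hh => (CesS_shift a ha N h).trans ?_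
      have h5 : (h : ℝ) ≤ H := by exact_mod_cast (Finset.mem_Icc.1 hh).2
      linarith
    refine h4.trans (le_of_eq ?_)
    rw [Finset.sum_const, Nat.card_Icc, Nat.add_sub_cancel, nsmul_eq_mul]
  have h6 : ‖∑ n ∈ Icc 1 N, ∑ h ∈ Icc 1 H, a (n + h)‖ ≤
      H * ∑ n ∈ Icc 1 N, ‖∑ h ∈ Icc 1 H, a (n + h)‖ / H := by
    refine (norm_sum_le _ _).trans (le_of_eq ?_)
    rw [Finset.mul_sum]
    refine Finset.sum_congr rfl fun n _ => ?_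
    field_simp
  have h7 : (H : ℝ) * ‖∑ n ∈ Icc 1 N, a n‖ ≤
      H * (∑ n ∈ Icc 1 N, ‖∑ h ∈ Icc 1 H, a (n + h)‖ / H + 2 * H) := by
    have h8 : (H : ℝ) * ‖∑ n ∈ Icc 1 N, a n‖ = ‖(H : ℂ) * ∑ n ∈ Icc 1 N, a n‖ := by
      rw [norm_mul, Complex.norm_natCast]
    rw [h8, h1, mul_add]
    refine (norm_add_le _ _).trans ?_
    linarith
  exact le_of_mul_le_mul_left h7 hH0

open scoped Classical in
/-- Directly from the hypothesis for `N + 1`. -/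
theorem bad_ces {Y : Type} (S : Y → Y) (U : Set Y) (ε : ℝ) (hε : 0 < ε) (hU : ∀ ε' : ℝ, 0 < ε' → ∃ N₀ : ℕ, ∀ N : ℕ, N₀ ≤ N → ∀ y : Y,
      ((((range N).filter (fun n => S^[n] y ∉ U)).card : ℕ) : ℝ) ≤ ε' * N) :
    ∃ N₁ : ℕ, ∀ N : ℕ, N₁ ≤ N → ∀ y : Y, ((((Icc 1 N).filter (fun n => S^[n] y ∉ U)).card : ℕ) : ℝ) ≤ ε * N := by
  obtain ⟨N₀, h0⟩ := hU (ε / 2) (by positivity)
  refine ⟨N₀ + 1, fun N hN y => ?_⟩
  have h1 := h0 (N + 1) (by omega) y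
  have h2 : (((Icc 1 N).filter (fun n => S^[n] y ∉ U)).card : ℕ) ≤
      (((range (N + 1)).filter (fun n => S^[n] y ∉ U)).card : ℕ) := by
    refine Finset.card_le_card (Finset.filter_subset_filter _ fun n hn => ?_)
    have := (Finset.mem_Icc.1 hn).2
    exact Finset.mem_range.2 (by omega)
  have h3 : ((((Icc 1 N).filter (fun n => S^[n] y ∉ U)).card : ℕ) : ℝ) ≤
      ((((range (N + 1)).filter (fun n => S^[n] y ∉ U)).card : ℕ) : ℝ) := by exact_mod_cast h2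
  have h4 : (1 : ℝ) ≤ N := by exact_mod_cast (by omega : 1 ≤ N)
  push_cast at h1
  nlinarith

end Pool.Agent.Lib.MP_3e612f_nt.NF
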