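import Pool.Agent.Lib.MP_3e612f_nt.NF.Base

/-! Local averages (skew products). -/

set_option autoImplicit false

namespace Pool.Agent.Lib.MP_3e612f_nt.NF

open Finset
open Pool.Agent.Lib.MP_3e612f_nt.MR (mu ex)

theorem LocAvg_step (b : ℕ → ℂ) (hb : ∀ n, ‖b n‖ ≤ 1) (N : ℕ) :
    ‖∑ n ∈ Icc 1 (N + 1), (b n - b (n + 1)) / n + b (N + 2) / ((N : ℂ) + 1)‖ ≤ 2 - 1 / ((N : ℝ) + 1) := by
  induction N with
  | zero =>
    have h1 : ∑ n ∈ Icc 1 (0 + 1), (b n - b (n + 1)) / n + b (0 + 2) / (((0 : ℕ) : ℂ) + 1) = b 1 := by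
      simp
    rw [h1]
    refine (hb 1).trans (le_of_eq ?_)
    norm_num
  | succ N ih =>
    have hN1 : ((N : ℂ) + 1) ≠ 0 := by exact_mod_cast (by omega : N + 1 ≠ 0)
    have hN2 : ((N : ℂ) + 1 + 1) ≠ 0 := by exact_mod_cast (by omega : N + 1 + 1 ≠ 0)
    have h1 : ∑ n ∈ Icc 1 (N + 1 + 1), (b n - b (n + 1)) / n + b (N + 1 + 2) / (((N + 1 : ℕ) : ℂ) + 1) =
        (∑ n ∈ Icc 1 (N + 1), (b n - b (n + 1)) / n + b (N + 2) / ((N : ℂ) + 1)) -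
          b (N + 2) * (((1 / ((N : ℝ) + 1) - 1 / ((N : ℝ) + 1 + 1) : ℝ)) : ℂ) := by
      rw [Finset.sum_Icc_succ_top (by omega)]
      push_cast
      field_simp
      ring
    rw [h1]
    have hpos : (0 : ℝ) < (N : ℝ) + 1 := by positivity
    have h2 : 0 ≤ 1 / ((N : ℝ) + 1) - 1 / ((N : ℝ) + 1 + 1) := by
      rw [sub_nonneg]
      exact one_div_le_one_div_of_le hpos (by linarith)
    have h3 : ‖b (N + 2) * (((1 / ((N : ℝ) + 1) - 1 / ((N : ℝ) + 1 + 1) : ℝ)) : ℂ)‖ ≤ 1 / ((N : ℝ) + 1) - 1 / ((N : ℝ) + 1 + 1) := by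
      rw [norm_mul, Complex.norm_real, Real.norm_eq_abs, abs_of_nonneg h2]
      exact mul_le_of_le_one_left h2 (hb _)
    refine (norm_sub_le _ _).trans ?_
    rw [Nat.cast_add_one]
    linarith

/-- one step: `∑ a(n)/n` and `∑ a(n+1)/n` differ by at most `2` -/
theorem LocAvg_one (b : ℕ → ℂ) (hb : ∀ n, ‖b n‖ ≤ 1) (N : ℕ) :
    ‖∑ n ∈ Icc 1 N, b n / n - ∑ n ∈ Icc 1 N, b (n + 1) / n‖ ≤ 2 := by
  rcases Nat.eq_zero_or_pos N with h0 | h0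
  · subst h0
    simp
  · obtain ⟨M, rfl⟩ : ∃ M, N = M + 1 := ⟨N - 1, by omega⟩
    have h1 := LocAvg_step b hb M
    have hpos : (0 : ℝ) < (M : ℝ) + 1 := by positivity
    have h2 : ‖b (M + 2) / ((M : ℂ) + 1)‖ ≤ 1 / ((M : ℝ) + 1) := by
      rw [norm_div]
      have h3 : ‖(M : ℂ) + 1‖ = (M : ℝ) + 1 := by
        have : (M : ℂ) + 1 = (((M : ℝ) + 1 : ℝ) : ℂ) := by push_cast; rfl
        rw [this, Complex.norm_real, Real.norm_eq_abs, abs_of_pos hpos]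
      rw [h3]
      exact div_le_div_of_nonneg_right (hb _) hpos.le
    have h4 : ∑ n ∈ Icc 1 (M + 1), b n / n - ∑ n ∈ Icc 1 (M + 1), b (n + 1) / n =
        (∑ n ∈ Icc 1 (M + 1), (b n - b (n + 1)) / n + b (M + 2) / ((M : ℂ) + 1)) - b (M + 2) / ((M : ℂ) + 1) := by
      rw [add_sub_cancel_right, ← Finset.sum_sub_distrib]
      exact Finset.sum_congr rfl fun n _ => by rw [sub_div]
    rw [h4]
    refine (norm_sub_le _ _).trans ?_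
    linarith

theorem LocAvg_shift (b : ℕ → ℂ) (hb : ∀ n, ‖b n‖ ≤ 1) (N h : ℕ) :
    ‖∑ n ∈ Icc 1 N, b n / n - ∑ n ∈ Icc 1 N, b (n + h) / n‖ ≤ 2 * h := by
  induction h with
  | zero => simp
  | succ h ih =>
    have h1 := LocAvg_one (fun n => b (n + h)) (fun n => hb _) N
    have h2 : ∑ n ∈ Icc 1 N, b n / n - ∑ n ∈ Icc 1 N, b (n + (h + 1)) / n =
        (∑ n ∈ Icc 1 N, b n / n - ∑ n ∈ Icc 1 N, b (n + h) / n) +
        (∑ n ∈ Icc 1 N, b (n + h) / n - ∑ n ∈ Icc 1 N, b (n + 1 + h) / n) := by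
      rw [sub_add_sub_cancel]
      congr 1
      refine Finset.sum_congr rfl fun n _ => ?_
      rw [add_assoc n 1 h, add_comm 1 h]
    rw [h2]
    refine (norm_add_le _ _).trans ?_
    push_cast
    linarith

/-- `∑_{n≤N} a(n)/n = (1/H) ∑_{h=1}^H ∑_{n≤N} a(n+h)/n + O(C_H)`: `∑_n |1/n - 1/(n+h)| ≤ h π²/6`, and the boundary terms are bounded by `2 ∑_{j≤H} 1/j`-type constants. -/
theorem local_avg (H : ℕ) (hH : 1 ≤ H) : ∃ C : ℝ, ∀ (a : ℕ → ℂ) (N : ℕ), (∀ n, ‖a n‖ ≤ 1) →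
    ‖∑ n ∈ Icc 1 N, a n / n‖ ≤ ∑ n ∈ Icc 1 N, 1 / (n : ℝ) * (‖∑ h ∈ Icc 1 H, a (n + h)‖ / H) + C := by
  refine ⟨2 * H, fun a N ha => ?_⟩
  have hH0 : (0 : ℝ) < H := by exact_mod_cast hH
  have h1 : (H : ℂ) * ∑ n ∈ Icc 1 N, a n / n = ∑ h ∈ Icc 1 H, (∑ n ∈ Icc 1 N, a n / n - ∑ n ∈ Icc 1 N, a (n + h) / n) +
      ∑ n ∈ Icc 1 N, (1 / (n : ℂ)) * ∑ h ∈ Icc 1 H, a (n + h) := by
    rw [Finset.sum_sub_distrib, Finset.sum_const, Nat.card_Icc, Nat.add_sub_cancel, nsmul_eq_mul]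
    have h2 : ∑ n ∈ Icc 1 N, (1 / (n : ℂ)) * ∑ h ∈ Icc 1 H, a (n + h) = ∑ h ∈ Icc 1 H, ∑ n ∈ Icc 1 N, a (n + h) / n := by
      rw [Finset.sum_comm]
      refine Finset.sum_congr rfl fun n _ => ?_
      rw [Finset.mul_sum]
      exact Finset.sum_congr rfl fun h _ => by ring
    rw [h2]
    ring
  have h3 : ‖∑ h ∈ Icc 1 H, (∑ n ∈ Icc 1 N, a n / n - ∑ n ∈ Icc 1 N, a (n + h) / n)‖ ≤ H * (2 * H) := by
    refine (norm_sum_le _ _).trans ?_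
    have h4 : ∑ h ∈ Icc 1 H, ‖∑ n ∈ Icc 1 N, a n / n - ∑ n ∈ Icc 1 N, a (n + h) / n‖ ≤ ∑ h ∈ Icc 1 H, (2 * (H : ℝ)) := by
      refine Finset.sum_le_sum fun h hh => (LocAvg_shift a ha N h).trans ?_
      have h5 : (h : ℝ) ≤ H := by exact_mod_cast (Finset.mem_Icc.1 hh).2
      linarith
    refine h4.trans (le_of_eq ?_)
    rw [Finset.sum_const, Nat.card_Icc, Nat.add_sub_cancel, nsmul_eq_mul]
  have h6 : ‖∑ n ∈ Icc 1 N, (1 / (n : ℂ)) * ∑ h ∈ Icc 1 H, a (n + h)‖ ≤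
      H * ∑ n ∈ Icc 1 N, 1 / (n : ℝ) * (‖∑ h ∈ Icc 1 H, a (n + h)‖ / H) := by
    refine (norm_sum_le _ _).trans (le_of_eq ?_)
    rw [Finset.mul_sum]
    refine Finset.sum_congr rfl fun n _ => ?_
    rw [norm_mul, norm_div, norm_one, Complex.norm_natCast]
    field_simp
  have h7 : (H : ℝ) * ‖∑ n ∈ Icc 1 N, a n / n‖ ≤
      H * (∑ n ∈ Icc 1 N, 1 / (n : ℝ) * (‖∑ h ∈ Icc 1 H, a (n + h)‖ / H) + 2 * H) := by
    have h8 : (H : ℝ) * ‖∑ n ∈ Icc 1 N, a n / n‖ = ‖(H : ℂ) * ∑ n ∈ Icc 1 N, a n / n‖ := by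
      rw [norm_mul, Complex.norm_natCast]
    rw [h8, h1, mul_add]
    refine (norm_add_le _ _).trans ?_
    linarith
  exact le_of_mul_le_mul_left h7 hH0

end Pool.Agent.Lib.MP_3e612f_nt.NF
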