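import Pool.Agent.Lib.MP_3e612f_nt.NF.S.LocAvg
import Pool.Agent.Lib.MP_3e612f_nt.NF.S.BadDens
import Pool.Agent.Lib.MP_3e612f_nt.NF.S.Approx
import Pool.Agent.Lib.MP_3e612f_nt.NF.F.A

/-! Theorem (S): skew products over bases whose invariant measures are carried by fixed points. -/

set_option autoImplicit false

namespace Pool.Agent.Lib.MP_3e612f_nt.NF

open Finset
open Pool.Agent.Lib.MP_3e612f_nt.MR (mu ex)

private theorem ps_mu_le (n : ℕ) : |mu n| ≤ 1 := by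
  unfold mu
  have h := ArithmeticFunction.abs_moebius_le_one (n := n)
  have h2 : |((ArithmeticFunction.moebius n : ℤ) : ℝ)| = ((|ArithmeticFunction.moebius n| : ℤ) : ℝ) := by
    push_cast
    rfl
  rw [h2]
  exact_mod_cast h

private theorem ps_norm_mu_le (n : ℕ) : ‖(mu n : ℂ)‖ ≤ 1 := by
  rw [Complex.norm_real, Real.norm_eq_abs]
  exact ps_mu_le n

private theorem ps_harm {N : ℕ} (hN : 3 ≤ N) : ∑ n ∈ Icc 1 N, 1 / (n : ℝ) ≤ 2 * Real.log N := by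
  have h1 : ((harmonic N : ℚ) : ℝ) ≤ 1 + Real.log N := harmonic_le_one_add_log N
  have h2 : ((harmonic N : ℚ) : ℝ) = ∑ n ∈ Icc 1 N, 1 / (n : ℝ) := by
    rw [harmonic_eq_sum_Icc]
    push_cast
    exact sum_congr rfl fun n _ => (one_div _).symm
  rw [← h2]
  have h3 : 1 ≤ Real.log N := by
    rw [Real.le_log_iff_exp_le (by positivity)]
    have h4 : (3 : ℝ) ≤ N := by exact_mod_cast hN
    have h5 := Real.exp_one_lt_d9
    linarith
  linarith

/-- fixed points and the approximation of orbit pieces -/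
private theorem ps_orbit {G : Type} [Group G] [TopologicalSpace G] [IsTopologicalGroup G] {Γ : Subgroup G}
    {Y : Type} [MetricSpace Y] [CompactSpace Y] (S : Y → Y) (hS : Continuous S) (g : Y → G) (hg : Continuous g)
    (F : Y × G → ℂ) (hF : Continuous F) (hΓ : ∀ y x, ∀ γ ∈ Γ, F (y, x * γ) = F (y, x))
    (D : Set G) (hD : IsCompact D) (hdec : ∀ x : G, ∃ r ∈ D, ∃ γ ∈ Γ, x = r * γ) (δ : ℝ) (hδ : 0 < δ) :
    ∃ Z : Finset Y, (∀ z ∈ Z, S z = z) ∧ ∀ H : ℕ, ∃ U : Set Y, IsOpen U ∧ (∀ y, S y = y → y ∈ U) ∧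
      ∀ (p : Y × G) (n : ℕ), S^[n] p.1 ∈ U → ∃ y', S y' = y' ∧ ∃ r : G, ∃ z ∈ Z, ∀ h ≤ H,
        ‖F ((skew S g)^[n + h] p) - F (z, g y' ^ h * r)‖ ≤ 2 * δ := by
  obtain ⟨Z, hZ, hZ'⟩ := finite_fibres hS hF D hD δ hδ
  refine ⟨Z, hZ, fun H => ?_⟩
  obtain ⟨U, hU, hUf, hUn⟩ := near_fix hS hg hF D hD H δ hδ
  refine ⟨U, hU, hUf, fun p n hn => ?_⟩
  obtain ⟨y', hy', hy'n⟩ := hUn _ hn
  obtain ⟨z, hz, hzn⟩ := hZ' y' hy'
  have hfst : ∀ m : ℕ, ((skew S g)^[m] p).1 = S^[m] p.1 := by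
    intro m
    induction m with
    | zero => rfl
    | succ m ih =>
      rw [Function.iterate_succ_apply', Function.iterate_succ_apply', ← ih]
      rfl
  obtain ⟨r, hr, γ, hγ, hx⟩ := hdec ((skew S g)^[n] p).2
  have hpn : (skew S g)^[n] p = (S^[n] p.1, r * γ) := Prod.ext (hfst n) hx
  refine ⟨y', hy', r, z, hz, fun h hh => ?_⟩
  have e1 : F ((skew S g)^[n + h] p) = F ((skew S g)^[h] (S^[n] p.1, r)) := by
    rw [add_comm n h, Function.iterate_add_apply, hpn]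
    exact skew_right hΓ h _ r γ hγ
  have e2 := hy'n r hr h hh
  obtain ⟨r', hr', γ', hγ', hx'⟩ := hdec (g y' ^ h * r)
  have e3 : ‖F (y', g y' ^ h * r) - F (z, g y' ^ h * r)‖ ≤ δ := by
    rw [hx', hΓ y' r' γ' hγ', hΓ z r' γ' hγ']
    exact hzn r' hr'
  rw [e1]
  have e4 : F ((skew S g)^[h] (S^[n] p.1, r)) - F (z, g y' ^ h * r) =
      (F ((skew S g)^[h] (S^[n] p.1, r)) - F (y', g y' ^ h * r)) + (F (y', g y' ^ h * r) - F (z, g y' ^ h * r)) := by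
    ring
  rw [e4]
  exact (norm_add_le _ _).trans (by linarith)

private theorem ps_card (Q : ℕ → Prop) {dQ : DecidablePred Q} (N : ℕ) :
    Nat.card {n : ℕ // n < N ∧ Q n} = ((range N).filter Q).card := by
  exact Nat.subtype_card _ (fun x => by simp)

private theorem ps_unit {C : ℝ} (hC : 0 < C) {w : ℂ} (hw : ‖w‖ ≤ C) (n : ℕ) :
    ‖w * (mu n : ℂ) / C‖ ≤ 1 := by
  have h1 : ‖(C : ℂ)‖ = C := by rw [Complex.norm_real, Real.norm_of_nonneg hC.le]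
  rw [norm_div, norm_mul, h1, div_le_one hC]
  calc _ ≤ C * 1 := mul_le_mul hw (ps_norm_mu_le _) (norm_nonneg _) hC.le
    _ = _ := mul_one _

/-- (S). `D` from `dec M` (`LL G k = ⊥`: `x = r γ`); `‖F‖ ≤ C` (compactness of `Y × D`, invariance); normalise. Given `ε`: `finite_fibres` (`ε/8`): `Z`; `part_a` for each `F(z, ·)`, `z ∈ Z`, with `ε/(8(|Z|+1))`: its `η, B` are harmless (the sets are null and without rational numbers), `S` there = `{g y : S y = y}`; `H` large; `near_fix` (`H`, `ε/8`): `U`;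
`bad_log` for `U`. For `n` with `S^n y₀ ∈ U` write `T^n(y₀,x₀) = (y_n, x_n)`, `x_n = r_n γ_n`: `F(T^(n+h)(y₀,x₀)) = F(T^h (y_n, r_n))` is within `ε/8` of `F(y'_n, g(y'_n)^h r_n)`, which is within `ε/8` of `F(z_n, g(y'_n)^h r_n)` (`g^h r_n = r' γ'`). `local_avg` for `a(n) = μ(n) F(T^n (y₀,x₀))/C`; the sum over `n` is at most
`∑_{z ∈ Z}` of the sums of `part_a` (terms with other `z` only increase them; `g n := g(y'_n)` or that of any fixed point for bad `n`; if there is no fixed point then `U = ∅` is allowed and the hypothesis on `S` is contradictory for nonempty `Y`). -/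
theorem part_s {G : Type} [Group G] [TopologicalSpace G] [IsTopologicalGroup G] {Γ : Subgroup G} {k : ℕ} (M : Mal G Γ k) (hk : LL G k = ⊥)
    {Y : Type} [MetricSpace Y] [CompactSpace Y] (S : Y → Y) (hS : Continuous S)
    (hfix : ∀ U : Set Y, IsOpen U → (∀ y, S y = y → y ∈ U) → ∀ ε : ℝ, 0 < ε → ∃ N₀ : ℕ, ∀ N : ℕ, N₀ ≤ N → ∀ y : Y,
      ((Nat.card {n : ℕ // n < N ∧ S^[n] y ∉ U} : ℕ) : ℝ) ≤ ε * N)
    (g : Y → G) (hg : Continuous g)
    (hfr : ∀ m : M.I 0 → ℤ, m ≠ 0 → MeasureTheory.volume (Fr {x | ∃ y, S y = y ∧ x = dot m (M.p 0 (g y))}) = 0 ∧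
      ∀ q : ℚ, (q : ℝ) ∉ Fr {x | ∃ y, S y = y ∧ x = dot m (M.p 0 (g y))})
    (F : Y × G → ℂ) (hF : Continuous F) (hΓ : ∀ y x, ∀ γ ∈ Γ, F (y, x * γ) = F (y, x)) (y₀ : Y) (x₀ : G) :
    Filter.Tendsto (fun N : ℕ => (1 / (Real.log N : ℂ)) * ∑ n ∈ Icc 1 N, F ((skew S g)^[n] (y₀, x₀)) * (mu n : ℂ) / (n : ℂ)) Filter.atTop (nhds 0) := by
  classical
  -- the fundamental domain
  obtain ⟨D, hD, hdec⟩ : ∃ D : Set G, IsCompact D ∧ ∀ x : G, ∃ r ∈ D, ∃ γ ∈ Γ, x = r * γ := by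
    obtain ⟨D, hD, hx⟩ := dec M
    refine ⟨D, hD, fun x => ?_⟩
    obtain ⟨r, hr, h, hh, γ, hγ, hxe, -⟩ := hx x
    rw [hk, Subgroup.mem_bot] at hh
    exact ⟨r, hr, γ, hγ, by rw [hxe, hh, mul_one]⟩
  -- the bound
  obtain ⟨C, hC, hFC⟩ : ∃ C : ℝ, 0 < C ∧ ∀ p, ‖F p‖ ≤ C := by
    obtain ⟨C, hC⟩ := ((isCompact_univ (X := Y)).prod hD).exists_bound_of_continuousOn hF.continuousOn
    refine ⟨max C 1, lt_of_lt_of_le one_pos (le_max_right _ _), fun p => ?_⟩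
    obtain ⟨y, x⟩ := p
    obtain ⟨r, hr, γ, hγ, rfl⟩ := hdec x
    rw [hΓ y r γ hγ]
    exact (hC (y, r) ⟨Set.mem_univ _, hr⟩).trans (le_max_left _ _)
  -- a fixed point
  obtain ⟨ys, hys⟩ : ∃ y, S y = y := by
    by_contra hno
    push Not at hno
    obtain ⟨N₀, hN₀⟩ := hfix ∅ isOpen_empty (fun y hy => absurd hy (hno y)) (1 / 2) (by norm_num)
    have h1 := hN₀ (N₀ + 1) (Nat.le_succ _) y₀
    rw [ps_card (fun n => S^[n] y₀ ∉ (∅ : Set Y))] at h1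
    have h2 : ((range (N₀ + 1)).filter (fun n => S^[n] y₀ ∉ (∅ : Set Y))) = range (N₀ + 1) := by
      refine filter_true_of_mem fun n _ => ?_
      exact Set.notMem_empty _
    rw [h2, card_range] at h1
    have h3 : (0 : ℝ) < ((N₀ + 1 : ℕ) : ℝ) := by positivity
    linarith
  -- the claim
  have key : ∀ ε : ℝ, 0 < ε → ∃ N₁ : ℕ, ∀ N : ℕ, N₁ ≤ N →
      ‖∑ n ∈ Icc 1 N, F ((skew S g)^[n] (y₀, x₀)) * (mu n : ℂ) / (n : ℂ)‖ ≤ ε * Real.log N := by
    intro ε hε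
    have hδ : 0 < ε / 20 := by positivity
    obtain ⟨Z, hZ, hU⟩ := ps_orbit S hS g hg F hF hΓ D hD hdec (ε / 20) hδ
    -- part_a for every `z`
    have hA : ∀ z : Y, ∃ H₀ : ℕ, ∀ H : ℕ, H₀ ≤ H → ∃ N₀ : ℕ, ∀ N : ℕ, N₀ ≤ N → ∀ g' a : ℕ → G,
        (∀ n, g' n ∈ {x | ∃ y, S y = y ∧ x = g y}) →
        ∑ n ∈ Icc 1 N, 1 / (n : ℝ) * ‖∑ h ∈ Icc 1 H, (mu (n + h) : ℂ) * F (z, g' n ^ h * a n)‖ ≤
          ε / 20 / (Z.card + 1) * H * Real.log N := by
      intro z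
      obtain ⟨η, hη, B, hB⟩ := part_a M hk (fun x => F (z, x)) (hF.comp (Continuous.prodMk_right z)) (fun x γ hγ => hΓ z x γ hγ)
        (ε / 20 / (Z.card + 1)) (by positivity)
      refine hB {x | ∃ y, S y = y ∧ x = g y} fun m hm _ => ?_
      have h1 : {x | ∃ g' ∈ {x | ∃ y, S y = y ∧ x = g y}, x = dot m (M.p 0 g')} = {x | ∃ y, S y = y ∧ x = dot m (M.p 0 (g y))} := by
        ext x
        constructor
        · rintro ⟨g', ⟨y, hy, rfl⟩, hx⟩
          exact ⟨y, hy, hx⟩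
        · rintro ⟨y, hy, hx⟩
          exact ⟨g y, ⟨y, hy, rfl⟩, hx⟩
      rw [h1]
      obtain ⟨h2, h3⟩ := hfr m hm
      refine ⟨?_, h3⟩
      rw [MeasureTheory.measure_mono_null Set.inter_subset_left h2]
      exact zero_le
    choose H₀ hH₀ using hA
    obtain ⟨H, hH1, hHz⟩ : ∃ H : ℕ, 1 ≤ H ∧ ∀ z ∈ Z, H₀ z ≤ H :=
      ⟨max 1 (Z.sup H₀), le_max_left _ _, fun z hz => (Finset.le_sup hz).trans (le_max_right _ _)⟩
    obtain ⟨U, hUo, hUf, hUn⟩ := hU H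
    have hH0 : (0 : ℝ) < H := by exact_mod_cast hH1
    -- thresholds
    have hN0 : ∀ z : Y, ∃ N₀ : ℕ, z ∈ Z → ∀ N : ℕ, N₀ ≤ N → ∀ g' a : ℕ → G,
        (∀ n, g' n ∈ {x | ∃ y, S y = y ∧ x = g y}) →
        ∑ n ∈ Icc 1 N, 1 / (n : ℝ) * ‖∑ h ∈ Icc 1 H, (mu (n + h) : ℂ) * F (z, g' n ^ h * a n)‖ ≤
          ε / 20 / (Z.card + 1) * H * Real.log N := by
      intro z
      by_cases hz : z ∈ Z
      · obtain ⟨N₀, hN₀⟩ := hH₀ z H (hHz z hz)
        exact ⟨N₀, fun _ => hN₀⟩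
      · exact ⟨0, fun h => absurd h hz⟩
    choose N₀ hN₀ using hN0
    obtain ⟨N₂, hN₂⟩ := bad_log S U (ε / (4 * C)) (by positivity) (by
      intro ε' hε'
      obtain ⟨N₀, hN₀⟩ := hfix U hUo hUf ε' hε'
      refine ⟨N₀, fun N hN y => ?_⟩
      exact (le_of_eq (congrArg Nat.cast (ps_card (fun n => S^[n] y ∉ U) N).symm)).trans (hN₀ N hN y))
    obtain ⟨CH, hCH⟩ := local_avg H hH1
    obtain ⟨N₃, hN₃⟩ : ∃ N₃ : ℕ, ∀ N : ℕ, N₃ ≤ N → C * CH ≤ ε / 4 * Real.log N := by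
      have h1 : Filter.Tendsto (fun N : ℕ => ε / 4 * Real.log N) Filter.atTop Filter.atTop :=
        (Real.tendsto_log_atTop.comp tendsto_natCast_atTop_atTop).const_mul_atTop (by positivity)
      exact Filter.eventually_atTop.1 (h1.eventually_ge_atTop (C * CH))
    refine ⟨max (max 3 N₂) (max N₃ (Z.sup N₀)), fun N hN => ?_⟩
    have hN3 : 3 ≤ N := ((le_max_left _ _).trans (le_max_left _ _)).trans hN
    have hNN₂ : N₂ ≤ N := ((le_max_right _ _).trans (le_max_left _ _)).trans hN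
    have hNN₃ : N₃ ≤ N := ((le_max_left _ _).trans (le_max_right _ _)).trans hN
    have hNZ : ∀ z ∈ Z, N₀ z ≤ N := fun z hz =>
      (Finset.le_sup hz).trans (((le_max_right _ _).trans (le_max_right _ _)).trans hN)
    have hlog : 0 ≤ Real.log N := Real.log_natCast_nonneg N
    -- the data for each `n`
    have hdat : ∀ n : ℕ, ∃ y', S y' = y' ∧ ∃ r : G, S^[n] y₀ ∈ U → ∃ z ∈ Z, ∀ h ≤ H,
        ‖F ((skew S g)^[n + h] (y₀, x₀)) - F (z, g y' ^ h * r)‖ ≤ 2 * (ε / 20) := by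
      intro n
      by_cases hn : S^[n] y₀ ∈ U
      · obtain ⟨y', hy', r, z, hz, hzn⟩ := hUn (y₀, x₀) n hn
        exact ⟨y', hy', r, fun _ => ⟨z, hz, hzn⟩⟩
      · exact ⟨ys, hys, 1, fun h => absurd h hn⟩
    choose Yn hYn Rn hRn using hdat
    -- the window bound
    have hwin : ∀ n ∈ Icc 1 N, 1 / (n : ℝ) * (‖∑ h ∈ Icc 1 H, F ((skew S g)^[n + h] (y₀, x₀)) * (mu (n + h) : ℂ) / C‖ / H) ≤
        (2 * (ε / 20) / C) * (1 / (n : ℝ)) + (1 / (C * H)) * ∑ z ∈ Z, 1 / (n : ℝ) * ‖∑ h ∈ Icc 1 H, (mu (n + h) : ℂ) * F (z, g (Yn n) ^ h * Rn n)‖ +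
        (if S^[n] y₀ ∉ U then 1 / (n : ℝ) else 0) := by
      intro n _
      have hn0 : 0 ≤ 1 / (n : ℝ) := by positivity
      have hsum0 : 0 ≤ ∑ z ∈ Z, 1 / (n : ℝ) * ‖∑ h ∈ Icc 1 H, (mu (n + h) : ℂ) * F (z, g (Yn n) ^ h * Rn n)‖ :=
        sum_nonneg fun z _ => by positivity
      by_cases hn : S^[n] y₀ ∈ U
      · rw [if_neg (not_not.2 hn), add_zero]
        obtain ⟨z, hz, hzn⟩ := hRn n hn
        have h1 : ∑ h ∈ Icc 1 H, F ((skew S g)^[n + h] (y₀, x₀)) * (mu (n + h) : ℂ) / C =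
            (1 / (C : ℂ)) * (∑ h ∈ Icc 1 H, (F ((skew S g)^[n + h] (y₀, x₀)) - F (z, g (Yn n) ^ h * Rn n)) * (mu (n + h) : ℂ) +
              ∑ h ∈ Icc 1 H, (mu (n + h) : ℂ) * F (z, g (Yn n) ^ h * Rn n)) := by
          rw [← sum_add_distrib, mul_sum]
          refine sum_congr rfl fun h _ => ?_
          ring
        have h2 : ‖∑ h ∈ Icc 1 H, (F ((skew S g)^[n + h] (y₀, x₀)) - F (z, g (Yn n) ^ h * Rn n)) * (mu (n + h) : ℂ)‖ ≤ 2 * (ε / 20) * H := by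
          refine (norm_sum_le _ _).trans ?_
          have h3 : ∀ h ∈ Icc 1 H, ‖(F ((skew S g)^[n + h] (y₀, x₀)) - F (z, g (Yn n) ^ h * Rn n)) * (mu (n + h) : ℂ)‖ ≤ 2 * (ε / 20) := by
            intro h hh
            rw [norm_mul]
            calc _ ≤ 2 * (ε / 20) * 1 := mul_le_mul (hzn h (mem_Icc.1 hh).2) (ps_norm_mu_le _) (norm_nonneg _) (by positivity)
              _ = _ := mul_one _
          refine (sum_le_sum h3).trans (le_of_eq ?_)
          rw [sum_const, Nat.card_Icc, nsmul_eq_mul, Nat.add_sub_cancel]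
          ring
        have h4 : 1 / (n : ℝ) * ‖∑ h ∈ Icc 1 H, (mu (n + h) : ℂ) * F (z, g (Yn n) ^ h * Rn n)‖ ≤
            ∑ z ∈ Z, 1 / (n : ℝ) * ‖∑ h ∈ Icc 1 H, (mu (n + h) : ℂ) * F (z, g (Yn n) ^ h * Rn n)‖ :=
          single_le_sum (f := fun z => 1 / (n : ℝ) * ‖∑ h ∈ Icc 1 H, (mu (n + h) : ℂ) * F (z, g (Yn n) ^ h * Rn n)‖)
            (fun z _ => by positivity) hz
        have h5 : ‖∑ h ∈ Icc 1 H, F ((skew S g)^[n + h] (y₀, x₀)) * (mu (n + h) : ℂ) / C‖ ≤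
            1 / C * (2 * (ε / 20) * H + ‖∑ h ∈ Icc 1 H, (mu (n + h) : ℂ) * F (z, g (Yn n) ^ h * Rn n)‖) := by
          rw [h1, norm_mul]
          have h6 : ‖(1 / (C : ℂ))‖ = 1 / C := by
            rw [norm_div, norm_one, Complex.norm_real, Real.norm_of_nonneg hC.le]
          rw [h6]
          refine mul_le_mul_of_nonneg_left ?_ (by positivity)
          exact (norm_add_le _ _).trans (by linarith)
        calc _ ≤ 1 / (n : ℝ) * (1 / C * (2 * (ε / 20) * H + ‖∑ h ∈ Icc 1 H, (mu (n + h) : ℂ) * F (z, g (Yn n) ^ h * Rn n)‖) / H) := by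
              refine mul_le_mul_of_nonneg_left ?_ hn0
              exact div_le_div_of_nonneg_right h5 hH0.le
          _ = (2 * (ε / 20) / C) * (1 / (n : ℝ)) + (1 / (C * H)) * (1 / (n : ℝ) * ‖∑ h ∈ Icc 1 H, (mu (n + h) : ℂ) * F (z, g (Yn n) ^ h * Rn n)‖) := by
              field_simp
          _ ≤ _ := by
              have h7 : 0 ≤ 1 / (C * H) := by positivity
              have h8 := mul_le_mul_of_nonneg_left h4 h7
              linarith
      · rw [if_pos hn]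
        have h1 : ‖∑ h ∈ Icc 1 H, F ((skew S g)^[n + h] (y₀, x₀)) * (mu (n + h) : ℂ) / C‖ ≤ H := by
          refine (norm_sum_le _ _).trans ?_
          have h3 : ∀ h ∈ Icc 1 H, ‖F ((skew S g)^[n + h] (y₀, x₀)) * (mu (n + h) : ℂ) / C‖ ≤ 1 :=
            fun h _ => ps_unit hC (hFC _) _
          refine (sum_le_sum h3).trans (le_of_eq ?_)
          rw [sum_const, Nat.card_Icc, nsmul_eq_mul, Nat.add_sub_cancel, mul_one]
        have h2 : 1 / (n : ℝ) * (‖∑ h ∈ Icc 1 H, F ((skew S g)^[n + h] (y₀, x₀)) * (mu (n + h) : ℂ) / C‖ / H) ≤ 1 / (n : ℝ) := by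
          calc _ ≤ 1 / (n : ℝ) * 1 := mul_le_mul_of_nonneg_left ((div_le_one hH0).2 h1) hn0
            _ = _ := mul_one _
        have h3 : 0 ≤ (2 * (ε / 20) / C) * (1 / (n : ℝ)) := by positivity
        have h4 : 0 ≤ (1 / (C * H)) * ∑ z ∈ Z, 1 / (n : ℝ) * ‖∑ h ∈ Icc 1 H, (mu (n + h) : ℂ) * F (z, g (Yn n) ^ h * Rn n)‖ := by
          positivity
        linarith
    have hla := hCH (fun n => F ((skew S g)^[n] (y₀, x₀)) * (mu n : ℂ) / C) N (fun n => ps_unit hC (hFC _) _)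
    have hmain : ∑ n ∈ Icc 1 N, 1 / (n : ℝ) * (‖∑ h ∈ Icc 1 H, F ((skew S g)^[n + h] (y₀, x₀)) * (mu (n + h) : ℂ) / C‖ / H) ≤
        (2 * (ε / 20) / C) * (2 * Real.log N) + 1 / (C * H) * (ε / 20 * H * Real.log N) + ε / (4 * C) * Real.log N := by
      refine (sum_le_sum hwin).trans ?_
      rw [sum_add_distrib, sum_add_distrib, ← mul_sum, ← mul_sum, sum_comm]
      have h1 : (2 * (ε / 20) / C) * ∑ n ∈ Icc 1 N, 1 / (n : ℝ) ≤ (2 * (ε / 20) / C) * (2 * Real.log N) :=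
        mul_le_mul_of_nonneg_left (ps_harm hN3) (by positivity)
      have h2 : ∑ z ∈ Z, ∑ n ∈ Icc 1 N, 1 / (n : ℝ) * ‖∑ h ∈ Icc 1 H, (mu (n + h) : ℂ) * F (z, g (Yn n) ^ h * Rn n)‖ ≤
          ε / 20 * H * Real.log N := by
        calc _ ≤ ∑ z ∈ Z, ε / 20 / (Z.card + 1) * H * Real.log N :=
              sum_le_sum fun z hz => hN₀ z hz N (hNZ z hz) (fun n => g (Yn n)) Rn (fun n => ⟨Yn n, hYn n, rfl⟩)
          _ = (Z.card / (Z.card + 1)) * (ε / 20 * H * Real.log N) := by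
              rw [sum_const, nsmul_eq_mul]
              ring
          _ ≤ 1 * (ε / 20 * H * Real.log N) := by
              refine mul_le_mul_of_nonneg_right ?_ (by positivity)
              rw [div_le_one (by positivity)]
              linarith
          _ = _ := one_mul _
      have h3 : 1 / (C * H) * ∑ z ∈ Z, ∑ n ∈ Icc 1 N, 1 / (n : ℝ) * ‖∑ h ∈ Icc 1 H, (mu (n + h) : ℂ) * F (z, g (Yn n) ^ h * Rn n)‖ ≤
          1 / (C * H) * (ε / 20 * H * Real.log N) := mul_le_mul_of_nonneg_left h2 (by positivity)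
      have h4 : ∑ n ∈ Icc 1 N, (if S^[n] y₀ ∉ U then 1 / (n : ℝ) else 0) ≤ ε / (4 * C) * Real.log N := by
        refine (le_of_eq (sum_filter _ _).symm).trans (hN₂ N hNN₂ y₀)
      exact add_le_add (add_le_add h1 h3) h4
    have hfin : ‖∑ n ∈ Icc 1 N, F ((skew S g)^[n] (y₀, x₀)) * (mu n : ℂ) / (n : ℂ)‖ =
        C * ‖∑ n ∈ Icc 1 N, F ((skew S g)^[n] (y₀, x₀)) * (mu n : ℂ) / C / (n : ℂ)‖ := by
      have h1 : ∑ n ∈ Icc 1 N, F ((skew S g)^[n] (y₀, x₀)) * (mu n : ℂ) / (n : ℂ) =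
          (C : ℂ) * ∑ n ∈ Icc 1 N, F ((skew S g)^[n] (y₀, x₀)) * (mu n : ℂ) / C / (n : ℂ) := by
        rw [mul_sum]
        refine sum_congr rfl fun n _ => ?_
        have hC' : (C : ℂ) ≠ 0 := by exact_mod_cast hC.ne'
        field_simp
      rw [h1, norm_mul, Complex.norm_real, Real.norm_of_nonneg hC.le]
    rw [hfin]
    have h5 : ‖∑ n ∈ Icc 1 N, F ((skew S g)^[n] (y₀, x₀)) * (mu n : ℂ) / C / (n : ℂ)‖ ≤
        (2 * (ε / 20) / C) * (2 * Real.log N) + 1 / (C * H) * (ε / 20 * H * Real.log N) + ε / (4 * C) * Real.log N + CH :=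
      hla.trans (by linarith)
    have h6 := mul_le_mul_of_nonneg_left h5 hC.le
    have h7 : C * ((2 * (ε / 20) / C) * (2 * Real.log N) + 1 / (C * H) * (ε / 20 * H * Real.log N) + ε / (4 * C) * Real.log N + CH) =
        (ε / 5 + ε / 20 + ε / 4) * Real.log N + C * CH := by
      field_simp
      ring
    rw [h7] at h6
    have h8 := hN₃ N hNN₃
    have h9 : 0 ≤ ε * Real.log N := by positivity
    nlinarith
  rw [Metric.tendsto_atTop]
  intro ε hε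
  obtain ⟨N₁, hN₁⟩ := key (ε / 2) (by positivity)
  refine ⟨max N₁ 3, fun N hN => ?_⟩
  have h1 := hN₁ N ((le_max_left _ _).trans hN)
  have hN3 : 3 ≤ N := (le_max_right _ _).trans hN
  have hlog : 0 < Real.log N := Real.log_pos (by exact_mod_cast (by omega : 1 < N))
  rw [dist_zero_right, norm_mul, norm_div, norm_one, Complex.norm_real, Real.norm_of_nonneg hlog.le]
  calc _ ≤ 1 / Real.log N * (ε / 2 * Real.log N) := mul_le_mul_of_nonneg_left h1 (by positivity)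
    _ = ε / 2 := by field_simp
    _ < ε := by linarith

end Pool.Agent.Lib.MP_3e612f_nt.NF
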