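import Pool.Agent.Lib.MP_3e612f_nt.NF.S.MainO
import Pool.Agent.Lib.MP_3e612f_nt.NF.R.AU

/-! Theorem (S), strong form: the supremum over all points of the skew product inside the average. -/

set_option autoImplicit false

namespace Pool.Agent.Lib.MP_3e612f_nt.NF

open Finset
open Pool.Agent.Lib.MP_3e612f_nt.MR (mu ex)

private theorem sm_mu_le (n : ℕ) : |mu n| ≤ 1 := by
  unfold mu
  have h := ArithmeticFunction.abs_moebius_le_one (n := n)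
  have h2 : |((ArithmeticFunction.moebius n : ℤ) : ℝ)| = ((|ArithmeticFunction.moebius n| : ℤ) : ℝ) := by push_cast; rfl
  rw [h2]
  exact_mod_cast h

private theorem sm_norm_mu_le (n : ℕ) : ‖(mu n : ℂ)‖ ≤ 1 := by
  rw [Complex.norm_real, Real.norm_eq_abs]
  exact sm_mu_le n

/-- fixed points and the approximation of orbit pieces -/
private theorem sm_orbit {G : Type} [Group G] [TopologicalSpace G] [IsTopologicalGroup G] {Γ : Subgroup G}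
    {Y : Type} [MetricSpace Y] [CompactSpace Y] (S : Y → Y) (hS : Continuous S) (g : Y → G) (hg : Continuous g)
    (F : Y × G → ℂ) (hF : Continuous F) (hΓ : ∀ y x, ∀ γ ∈ Γ, F (y, x * γ) = F (y, x))
    (D : Set G) (hD : IsCompact D) (hdec : ∀ x : G, ∃ r ∈ D, ∃ γ ∈ Γ, x = r * γ) (δ : ℝ) (hδ : 0 < δ) :
    ∃ Z : Finset Y, (∀ z ∈ Z, S z = z) ∧ ∀ H : ℕ, ∃ U : Set Y, IsOpen U ∧ (∀ y, S y = y → y ∈ U) ∧
      ∀ (p : Y × G) (n : ℕ), S^[n] p.1 ∈ U → ∃ y', S y' = y' ∧ ∃ r : G, ∃ z ∈ Z, ∀ h ≤ H,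
        ‖F ((skew S g)^[n + h] p) - F (z, g y' ^ h * r)‖ ≤ 2 * δ := by
  obtain ⟨Z, hZ, hZ'⟩ := finite_fibres hS hF D hD δ hδ
  refine ⟨Z, hZ, fun H => ?_⟩
  obtain ⟨U, hU, hUf, hUn⟩ := near_fix hS hg hF D hD H δ hδ
  refine ⟨U, hU, hUf, fun p n hn => ?_⟩
  obtain ⟨y', hy', hy'n⟩ := hUn _ hn
  obtain ⟨z, hz, hzn⟩ := hZ' y' hy'
  have hfst : ∀ m : ℕ, ((skew S g)^[m] p).1 = S^[m] p.1 := by
    intro m
    induction m with
    | zero => rfl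
    | succ m ih =>
      rw [Function.iterate_succ_apply', Function.iterate_succ_apply', ← ih]
      rfl
  obtain ⟨r, hr, γ, hγ, hx⟩ := hdec ((skew S g)^[n] p).2
  have hpn : (skew S g)^[n] p = (S^[n] p.1, r * γ) := Prod.ext (hfst n) hx
  refine ⟨y', hy', r, z, hz, fun h hh => ?_⟩
  have e1 : F ((skew S g)^[n + h] p) = F ((skew S g)^[h] (S^[n] p.1, r)) := by
    rw [add_comm n h, Function.iterate_add_apply, hpn]
    exact skew_right hΓ h _ r γ hγ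
  have e2 := hy'n r hr h hh
  obtain ⟨r', hr', γ', hγ', hx'⟩ := hdec (g y' ^ h * r)
  have e3 : ‖F (y', g y' ^ h * r) - F (z, g y' ^ h * r)‖ ≤ δ := by
    rw [hx', hΓ y' r' γ' hγ', hΓ z r' γ' hγ']
    exact hzn r' hr'
  rw [e1]
  have e4 : F ((skew S g)^[h] (S^[n] p.1, r)) - F (z, g y' ^ h * r) =
      (F ((skew S g)^[h] (S^[n] p.1, r)) - F (y', g y' ^ h * r)) + (F (y', g y' ^ h * r) - F (z, g y' ^ h * r)) := by
    ring
  rw [e4]
  exact (norm_add_le _ _).trans (by linarith)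

private theorem sm_card (Q : ℕ → Prop) {dQ : DecidablePred Q} (N : ℕ) :
    Nat.card {n : ℕ // n < N ∧ Q n} = ((range N).filter Q).card := by
  exact Nat.subtype_card _ (fun x => by simp)

private theorem sm_unit {C : ℝ} (hC : 0 < C) {w : ℂ} (hw : ‖w‖ ≤ C) (n : ℕ) :
    ‖w * (mu n : ℂ) / C‖ ≤ 1 := by
  have h1 : ‖(C : ℂ)‖ = C := by rw [Complex.norm_real, Real.norm_of_nonneg hC.le]
  rw [norm_div, norm_mul, h1, div_le_one hC]
  calc _ ≤ C * 1 := mul_le_mul hw (sm_norm_mu_le _) (norm_nonneg _) hC.le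
    _ = _ := mul_one _

/-- (S), strong MOMO form. As `part_so` (S/MainO), the point may change with the window. Let `‖F‖ ≤ 1` (normalise), `H₁` a fixed length, `H` large. For fixed `n`: `|∑_{h=1}^H a_h| ≤ (1/H₁) ∑_{s<H} |∑_{h'=1}^{H₁} a_{s+h'}| + 2H₁` for `a_h = μ(n+h) F(T^h p_n)` (`local_avg_o`-like; `a_{s+h'} = μ(n+s+h') F(T^{h'} (T^s p_n))`).
For each `s < H` put `n' = n + s ≤ N + H` and `q_{n'} = T^s p_{n'-s} = (y, x)`: if `y` is in the neighbourhood `U` of the fixed points then the inner sum is within `(ε/8) H₁` of that for `F(z, g(y')^{h'} r)`, `z ∈ Z` finite (as in `part_so`), and `part_au` for the length `H₁` and `N + H ≤ 2N` gives `(ε/8) H₁ 2N` in total;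
the pairs `(n, s)` with `S^s y_n ∉ U` are at most `(ε/8) H N` by `hfix` for `H` large (uniform in the point). Total `≤ (ε/2 + ..) H N`. -/
theorem part_sm {G : Type} [Group G] [TopologicalSpace G] [IsTopologicalGroup G] {Γ : Subgroup G} {k : ℕ} (M : Mal G Γ k) (hk : LL G k = ⊥)
    {Y : Type} [MetricSpace Y] [CompactSpace Y] (S : Y → Y) (hS : Continuous S)
    (hfix : ∀ U : Set Y, IsOpen U → (∀ y, S y = y → y ∈ U) → ∀ ε : ℝ, 0 < ε → ∃ N₀ : ℕ, ∀ N : ℕ, N₀ ≤ N → ∀ y : Y,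
      ((Nat.card {n : ℕ // n < N ∧ S^[n] y ∉ U} : ℕ) : ℝ) ≤ ε * N)
    (g : Y → G) (hg : Continuous g)
    (hfr : ∀ m : M.I 0 → ℤ, m ≠ 0 → MeasureTheory.volume (Fr {x | ∃ y, S y = y ∧ x = dot m (M.p 0 (g y))}) = 0 ∧
      ∀ q : ℚ, (q : ℝ) ∉ Fr {x | ∃ y, S y = y ∧ x = dot m (M.p 0 (g y))})
    (F : Y × G → ℂ) (hF : Continuous F) (hΓ : ∀ y x, ∀ γ ∈ Γ, F (y, x * γ) = F (y, x)) (ε : ℝ) (hε : 0 < ε) :
    ∃ D : ℕ, ∀ H N : ℕ, D ≤ H → D * H ≤ N → ∀ p : ℕ → Y × G,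
      ∑ n ∈ Icc 1 N, ‖∑ h ∈ Icc 1 H, (mu (n + h) : ℂ) * F ((skew S g)^[h] (p n))‖ ≤ ε * H * N := by
  classical
  -- the fundamental domain
  obtain ⟨D, hD, hdec⟩ : ∃ D : Set G, IsCompact D ∧ ∀ x : G, ∃ r ∈ D, ∃ γ ∈ Γ, x = r * γ := by
    obtain ⟨D, hD, hx⟩ := dec M
    refine ⟨D, hD, fun x => ?_⟩
    obtain ⟨r, hr, h, hh, γ, hγ, hxe, -⟩ := hx x
    rw [hk, Subgroup.mem_bot] at hh
    exact ⟨r, hr, γ, hγ, by rw [hxe, hh, mul_one]⟩
  -- the bound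
  obtain ⟨C, hC, hFC⟩ : ∃ C : ℝ, 0 < C ∧ ∀ p, ‖F p‖ ≤ C := by
    obtain ⟨C, hC⟩ := ((isCompact_univ (X := Y)).prod hD).exists_bound_of_continuousOn hF.continuousOn
    refine ⟨max C 1, lt_of_lt_of_le one_pos (le_max_right _ _), fun p => ?_⟩
    obtain ⟨y, x⟩ := p
    obtain ⟨r, hr, γ, hγ, rfl⟩ := hdec x
    rw [hΓ y r γ hγ]
    exact (hC (y, r) ⟨Set.mem_univ _, hr⟩).trans (le_max_left _ _)
  have hδ : 0 < ε / 20 := by positivity
  obtain ⟨Z, hZ, hU⟩ := sm_orbit S hS g hg F hF hΓ D hD hdec (ε / 20) hδ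
  -- part_au for every `z`
  have hA : ∀ z : Y, ∃ D₁ : ℕ, ∀ H N : ℕ, D₁ ≤ H → D₁ * H ≤ N → ∀ g' a : ℕ → G,
      (∀ n, g' n ∈ {x | ∃ y, S y = y ∧ x = g y}) →
      ∑ n ∈ Icc 1 N, ‖∑ h ∈ Icc 1 H, (mu (n + h) : ℂ) * F (z, g' n ^ h * a n)‖ ≤
        ε / 20 / (Z.card + 1) * H * N := by
    intro z
    obtain ⟨B, hB⟩ := part_au M hk (fun x => F (z, x)) (hF.comp (Continuous.prodMk_right z)) (fun x γ hγ => hΓ z x γ hγ)
      (ε / 20 / (Z.card + 1)) (by positivity)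
    refine hB {x | ∃ y, S y = y ∧ x = g y} fun m hm _ => ?_
    have h1 : {x | ∃ g' ∈ {x | ∃ y, S y = y ∧ x = g y}, x = dot m (M.p 0 g')} = {x | ∃ y, S y = y ∧ x = dot m (M.p 0 (g y))} := by
      ext x
      constructor
      · rintro ⟨g', ⟨y, hy, rfl⟩, hx⟩
        exact ⟨y, hy, hx⟩
      · rintro ⟨y, hy, hx⟩
        exact ⟨g y, ⟨y, hy, rfl⟩, hx⟩
    rw [h1]
    obtain ⟨h2, h3⟩ := hfr m hm
    refine ⟨?_, h3⟩
    rw [MeasureTheory.measure_mono_null Set.inter_subset_left h2]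
    exact zero_le
  choose D₁ hD₁ using hA
  obtain ⟨H₁, hH1, hHz⟩ : ∃ H₁ : ℕ, 1 ≤ H₁ ∧ ∀ z ∈ Z, D₁ z ≤ H₁ :=
    ⟨max 1 (Z.sup D₁), le_max_left _ _, fun z hz => (Finset.le_sup hz).trans (le_max_right _ _)⟩
  obtain ⟨U, hUo, hUf, hUn⟩ := hU H₁
  have hH0 : (0 : ℝ) < H₁ := by exact_mod_cast hH1
  obtain ⟨N₂, hN₂⟩ := bad_ces S U (ε / (4 * C)) (by positivity) (by
    intro ε' hε'
    obtain ⟨N₀, hN₀⟩ := hfix U hUo hUf ε' hε'
    refine ⟨N₀, fun N hN y => ?_⟩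
    exact (le_of_eq (congrArg Nat.cast (sm_card (fun n => S^[n] y ∉ U) N).symm)).trans (hN₀ N hN y))
  obtain ⟨N₃, hN₃⟩ : ∃ N₃ : ℕ, ∀ N : ℕ, N₃ ≤ N → C * (2 * H₁) ≤ ε / 4 * N := by
    have h1 : Filter.Tendsto (fun N : ℕ => ε / 4 * (N : ℝ)) Filter.atTop Filter.atTop :=
      tendsto_natCast_atTop_atTop.const_mul_atTop (by positivity)
    exact Filter.eventually_atTop.1 (h1.eventually_ge_atTop (C * (2 * H₁)))
  refine ⟨1 + N₂ + N₃ + Z.sup D₁ * H₁, fun H N hDH hDN p => ?_⟩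
  have hHN2 : N₂ ≤ H := by omega
  have hHN3 : N₃ ≤ H := by omega
  have hHN : H ≤ N := by nlinarith [Nat.zero_le (N₂ * H), Nat.zero_le (N₃ * H), Nat.zero_le (Z.sup D₁ * H₁ * H)]
  have hHpos : 1 ≤ H := by omega
  have hDzN : ∀ z ∈ Z, D₁ z * H₁ ≤ N := by
    intro z hz
    have h1 : D₁ z * H₁ ≤ Z.sup D₁ * H₁ := Nat.mul_le_mul_right _ (Finset.le_sup hz)
    omega
  -- a fixed point
  obtain ⟨ys, hys⟩ : ∃ y, S y = y := by
    by_contra hno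
    push Not at hno
    obtain ⟨N₀, hN₀⟩ := hfix ∅ isOpen_empty (fun y hy => absurd hy (hno y)) (1 / 2) (by norm_num)
    have h1 := hN₀ (N₀ + 1) (Nat.le_succ _) (p 0).1
    rw [sm_card (fun n => S^[n] (p 0).1 ∉ (∅ : Set Y))] at h1
    have h2 : ((range (N₀ + 1)).filter (fun n => S^[n] (p 0).1 ∉ (∅ : Set Y))) = range (N₀ + 1) := by
      refine filter_true_of_mem fun n _ => ?_
      exact Set.notMem_empty _
    rw [h2, card_range] at h1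
    have h3 : (0 : ℝ) < ((N₀ + 1 : ℕ) : ℝ) := by positivity
    linarith
  have hN0 : (0 : ℝ) ≤ N := Nat.cast_nonneg N
  have hH0' : (0 : ℝ) ≤ H := Nat.cast_nonneg H
  -- the data for each `n` and `s`
  have hdat : ∀ s n : ℕ, ∃ y', S y' = y' ∧ ∃ r : G, S^[s] (p n).1 ∈ U → ∃ z ∈ Z, ∀ h ≤ H₁,
      ‖F ((skew S g)^[s + h] (p n)) - F (z, g y' ^ h * r)‖ ≤ 2 * (ε / 20) := by
    intro s n
    by_cases hn : S^[s] (p n).1 ∈ U
    · obtain ⟨y', hy', r, z, hz, hzn⟩ := hUn (p n) s hn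
      exact ⟨y', hy', r, fun _ => ⟨z, hz, hzn⟩⟩
    · exact ⟨ys, hys, 1, fun h => absurd h hn⟩
  choose Yn hYn Rn hRn using hdat
  -- the window bound
  have hwin : ∀ n s : ℕ, ‖∑ h ∈ Icc 1 H₁, (mu (n + (s + h)) : ℂ) * F ((skew S g)^[s + h] (p n)) / C‖ / H₁ ≤
      2 * (ε / 20) / C + (1 / (C * H₁)) * ∑ z ∈ Z, ‖∑ h ∈ Icc 1 H₁, (mu (n + s + h) : ℂ) * F (z, g (Yn s n) ^ h * Rn s n)‖ +
      (if S^[s] (p n).1 ∉ U then 1 else 0) := by
    intro n s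
    have hsum0 : 0 ≤ ∑ z ∈ Z, ‖∑ h ∈ Icc 1 H₁, (mu (n + s + h) : ℂ) * F (z, g (Yn s n) ^ h * Rn s n)‖ :=
      sum_nonneg fun z _ => norm_nonneg _
    by_cases hn : S^[s] (p n).1 ∈ U
    · rw [if_neg (not_not.2 hn), add_zero]
      obtain ⟨z, hz, hzn⟩ := hRn s n hn
      have h1 : ∑ h ∈ Icc 1 H₁, (mu (n + (s + h)) : ℂ) * F ((skew S g)^[s + h] (p n)) / C =
          (1 / (C : ℂ)) * (∑ h ∈ Icc 1 H₁, (F ((skew S g)^[s + h] (p n)) - F (z, g (Yn s n) ^ h * Rn s n)) * (mu (n + s + h) : ℂ) +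
            ∑ h ∈ Icc 1 H₁, (mu (n + s + h) : ℂ) * F (z, g (Yn s n) ^ h * Rn s n)) := by
        rw [← sum_add_distrib, mul_sum]
        exact sum_congr rfl fun h _ => by rw [add_assoc n s h]; ring
      have h2 : ‖∑ h ∈ Icc 1 H₁, (F ((skew S g)^[s + h] (p n)) - F (z, g (Yn s n) ^ h * Rn s n)) * (mu (n + s + h) : ℂ)‖ ≤
          2 * (ε / 20) * H₁ := by
        refine (norm_sum_le _ _).trans ?_
        have h3 : ∀ h ∈ Icc 1 H₁, ‖(F ((skew S g)^[s + h] (p n)) - F (z, g (Yn s n) ^ h * Rn s n)) * (mu (n + s + h) : ℂ)‖ ≤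
            2 * (ε / 20) := by
          intro h hh
          rw [norm_mul]
          calc _ ≤ 2 * (ε / 20) * 1 := mul_le_mul (hzn h (mem_Icc.1 hh).2) (sm_norm_mu_le _) (norm_nonneg _) (by positivity)
            _ = _ := mul_one _
        refine (sum_le_sum h3).trans (le_of_eq ?_)
        rw [sum_const, Nat.card_Icc, nsmul_eq_mul, Nat.add_sub_cancel]
        ring
      have h4 : ‖∑ h ∈ Icc 1 H₁, (mu (n + s + h) : ℂ) * F (z, g (Yn s n) ^ h * Rn s n)‖ ≤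
          ∑ z ∈ Z, ‖∑ h ∈ Icc 1 H₁, (mu (n + s + h) : ℂ) * F (z, g (Yn s n) ^ h * Rn s n)‖ :=
        single_le_sum (f := fun z => ‖∑ h ∈ Icc 1 H₁, (mu (n + s + h) : ℂ) * F (z, g (Yn s n) ^ h * Rn s n)‖)
          (fun z _ => norm_nonneg _) hz
      have h5 : ‖∑ h ∈ Icc 1 H₁, (mu (n + (s + h)) : ℂ) * F ((skew S g)^[s + h] (p n)) / C‖ ≤
          1 / C * (2 * (ε / 20) * H₁ + ‖∑ h ∈ Icc 1 H₁, (mu (n + s + h) : ℂ) * F (z, g (Yn s n) ^ h * Rn s n)‖) := by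
        rw [h1, norm_mul]
        have h6 : ‖(1 / (C : ℂ))‖ = 1 / C := by
          rw [norm_div, norm_one, Complex.norm_real, Real.norm_of_nonneg hC.le]
        rw [h6]
        refine mul_le_mul_of_nonneg_left ?_ (by positivity)
        exact (norm_add_le _ _).trans (by linarith)
      calc _ ≤ 1 / C * (2 * (ε / 20) * H₁ + ‖∑ h ∈ Icc 1 H₁, (mu (n + s + h) : ℂ) * F (z, g (Yn s n) ^ h * Rn s n)‖) / H₁ :=
            div_le_div_of_nonneg_right h5 hH0.le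
        _ = 2 * (ε / 20) / C + (1 / (C * H₁)) * ‖∑ h ∈ Icc 1 H₁, (mu (n + s + h) : ℂ) * F (z, g (Yn s n) ^ h * Rn s n)‖ := by
            field_simp
        _ ≤ _ := by
            have h7 : 0 ≤ 1 / (C * H₁) := by positivity
            have h8 := mul_le_mul_of_nonneg_left h4 h7
            linarith
    · rw [if_pos hn]
      have h1 : ‖∑ h ∈ Icc 1 H₁, (mu (n + (s + h)) : ℂ) * F ((skew S g)^[s + h] (p n)) / C‖ ≤ H₁ := by
        refine (norm_sum_le _ _).trans ?_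
        have h3 : ∀ h ∈ Icc 1 H₁, ‖(mu (n + (s + h)) : ℂ) * F ((skew S g)^[s + h] (p n)) / C‖ ≤ 1 := by
          intro h _
          rw [mul_comm]
          exact sm_unit hC (hFC _) _
        refine (sum_le_sum h3).trans (le_of_eq ?_)
        rw [sum_const, Nat.card_Icc, nsmul_eq_mul, Nat.add_sub_cancel, mul_one]
      have h2 : ‖∑ h ∈ Icc 1 H₁, (mu (n + (s + h)) : ℂ) * F ((skew S g)^[s + h] (p n)) / C‖ / H₁ ≤ 1 := (div_le_one hH0).2 h1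
      have h3 : 0 ≤ 2 * (ε / 20) / C := by positivity
      have h4 : 0 ≤ (1 / (C * H₁)) * ∑ z ∈ Z, ‖∑ h ∈ Icc 1 H₁, (mu (n + s + h) : ℂ) * F (z, g (Yn s n) ^ h * Rn s n)‖ := by
        positivity
      linarith
  -- the window bound for each `n`
  have hla : ∀ n : ℕ, ‖∑ h ∈ Icc 1 H, (mu (n + h) : ℂ) * F ((skew S g)^[h] (p n)) / C‖ ≤
      ∑ s ∈ Icc 1 H, (2 * (ε / 20) / C + (1 / (C * H₁)) * ∑ z ∈ Z, ‖∑ h ∈ Icc 1 H₁, (mu (n + s + h) : ℂ) * F (z, g (Yn s n) ^ h * Rn s n)‖ +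
      (if S^[s] (p n).1 ∉ U then 1 else 0)) + 2 * H₁ := by
    intro n
    have h1 := local_avg_o H₁ hH1 (fun h => (mu (n + h) : ℂ) * F ((skew S g)^[h] (p n)) / C)
      (fun h => by
        show ‖(mu (n + h) : ℂ) * F ((skew S g)^[h] (p n)) / C‖ ≤ 1
        rw [mul_comm]
        exact sm_unit hC (hFC _) _) H
    refine h1.trans ?_
    have h2 := sum_le_sum (s := Icc 1 H) fun s _ => hwin n s
    linarith
  -- the sum over `n` for fixed `s` and `z`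
  have hsz : ∀ s ∈ Icc 1 H, ∀ z ∈ Z, ∑ n ∈ Icc 1 N, ‖∑ h ∈ Icc 1 H₁, (mu (n + s + h) : ℂ) * F (z, g (Yn s n) ^ h * Rn s n)‖ ≤
      ε / 20 / (Z.card + 1) * H₁ * (2 * N) := by
    intro s hs z hz
    have h1 := hD₁ z H₁ (N + s) (hHz z hz) ((hDzN z hz).trans (Nat.le_add_right _ _)) (fun n => g (Yn s (n - s))) (fun n => Rn s (n - s))
      (fun n => ⟨Yn s (n - s), hYn s (n - s), rfl⟩)
    have h2 : ∑ n ∈ Icc 1 N, ‖∑ h ∈ Icc 1 H₁, (mu (n + s + h) : ℂ) * F (z, g (Yn s n) ^ h * Rn s n)‖ ≤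
        ∑ n ∈ Icc 1 (N + s), ‖∑ h ∈ Icc 1 H₁, (mu (n + h) : ℂ) * F (z, g (Yn s (n - s)) ^ h * Rn s (n - s))‖ := by
      have h3 : ∑ n ∈ Icc 1 N, ‖∑ h ∈ Icc 1 H₁, (mu (n + s + h) : ℂ) * F (z, g (Yn s n) ^ h * Rn s n)‖ =
          ∑ n ∈ (Icc 1 N).map (addRightEmbedding s), ‖∑ h ∈ Icc 1 H₁, (mu (n + h) : ℂ) * F (z, g (Yn s (n - s)) ^ h * Rn s (n - s))‖ := by
        rw [sum_map]
        refine sum_congr rfl fun n _ => ?_
        simp only [addRightEmbedding_apply, Nat.add_sub_cancel]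
      rw [h3]
      refine sum_le_sum_of_subset_of_nonneg ?_ fun _ _ _ => norm_nonneg _
      intro n hn
      rw [mem_map] at hn
      obtain ⟨m, hm, rfl⟩ := hn
      rw [mem_Icc] at hm ⊢
      simp only [addRightEmbedding_apply]
      omega
    refine (h2.trans h1).trans ?_
    refine mul_le_mul_of_nonneg_left ?_ (by positivity)
    have h4 : s ≤ N := ((mem_Icc.1 hs).2).trans hHN
    have h5 : (s : ℝ) ≤ N := by exact_mod_cast h4
    push_cast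
    linarith
  -- the total
  have hmain : ∑ n ∈ Icc 1 N, ‖∑ h ∈ Icc 1 H, (mu (n + h) : ℂ) * F ((skew S g)^[h] (p n)) / C‖ ≤
      2 * (ε / 20) / C * H * N + 1 / (C * H₁) * (ε / 20 * H₁ * (2 * N) * H) + ε / (4 * C) * H * N + 2 * H₁ * N := by
    refine (sum_le_sum fun n _ => hla n).trans ?_
    rw [sum_add_distrib]
    have e0 : ∑ n ∈ Icc 1 N, (2 * (H₁ : ℝ)) = 2 * H₁ * N := by
      rw [sum_const, Nat.card_Icc, nsmul_eq_mul, Nat.add_sub_cancel]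
      ring
    have e1 : ∑ n ∈ Icc 1 N, ∑ s ∈ Icc 1 H, (2 * (ε / 20) / C +
        (1 / (C * H₁)) * ∑ z ∈ Z, ‖∑ h ∈ Icc 1 H₁, (mu (n + s + h) : ℂ) * F (z, g (Yn s n) ^ h * Rn s n)‖ +
        (if S^[s] (p n).1 ∉ U then (1 : ℝ) else 0)) =
        2 * (ε / 20) / C * H * N + 1 / (C * H₁) * ∑ s ∈ Icc 1 H, ∑ z ∈ Z, ∑ n ∈ Icc 1 N,
          ‖∑ h ∈ Icc 1 H₁, (mu (n + s + h) : ℂ) * F (z, g (Yn s n) ^ h * Rn s n)‖ +
        ∑ n ∈ Icc 1 N, ∑ s ∈ Icc 1 H, (if S^[s] (p n).1 ∉ U then (1 : ℝ) else 0) := by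
      simp only [sum_add_distrib]
      congr 1
      congr 1
      · simp only [sum_const, Nat.card_Icc, nsmul_eq_mul, Nat.add_sub_cancel]
        ring
      · rw [mul_sum]
        rw [sum_comm]
        refine sum_congr rfl fun s _ => ?_
        rw [← mul_sum, sum_comm]
    have e2 : ∑ s ∈ Icc 1 H, ∑ z ∈ Z, ∑ n ∈ Icc 1 N,
        ‖∑ h ∈ Icc 1 H₁, (mu (n + s + h) : ℂ) * F (z, g (Yn s n) ^ h * Rn s n)‖ ≤ ε / 20 * H₁ * (2 * N) * H := by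
      have e3 : ∀ s ∈ Icc 1 H, ∑ z ∈ Z, ∑ n ∈ Icc 1 N,
          ‖∑ h ∈ Icc 1 H₁, (mu (n + s + h) : ℂ) * F (z, g (Yn s n) ^ h * Rn s n)‖ ≤ ε / 20 * H₁ * (2 * N) := by
        intro s hs
        calc _ ≤ ∑ z ∈ Z, ε / 20 / (Z.card + 1) * H₁ * (2 * N) := sum_le_sum fun z hz => hsz s hs z hz
          _ = (Z.card / (Z.card + 1)) * (ε / 20 * H₁ * (2 * N)) := by
              rw [sum_const, nsmul_eq_mul]
              ring
          _ ≤ 1 * (ε / 20 * H₁ * (2 * N)) := by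
              refine mul_le_mul_of_nonneg_right ?_ (by positivity)
              rw [div_le_one (by positivity)]
              linarith
          _ = _ := one_mul _
      refine (sum_le_sum e3).trans (le_of_eq ?_)
      rw [sum_const, Nat.card_Icc, nsmul_eq_mul, Nat.add_sub_cancel]
      ring
    have e4 : ∑ n ∈ Icc 1 N, ∑ s ∈ Icc 1 H, (if S^[s] (p n).1 ∉ U then (1 : ℝ) else 0) ≤ ε / (4 * C) * H * N := by
      have e5 : ∀ n ∈ Icc 1 N, ∑ s ∈ Icc 1 H, (if S^[s] (p n).1 ∉ U then (1 : ℝ) else 0) ≤ ε / (4 * C) * H := by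
        intro n _
        rw [← sum_filter, sum_const, nsmul_eq_mul, mul_one]
        exact hN₂ H hHN2 (p n).1
      refine (sum_le_sum e5).trans (le_of_eq ?_)
      rw [sum_const, Nat.card_Icc, nsmul_eq_mul, Nat.add_sub_cancel]
      ring
    have e6 : 1 / (C * H₁) * ∑ s ∈ Icc 1 H, ∑ z ∈ Z, ∑ n ∈ Icc 1 N,
        ‖∑ h ∈ Icc 1 H₁, (mu (n + s + h) : ℂ) * F (z, g (Yn s n) ^ h * Rn s n)‖ ≤
        1 / (C * H₁) * (ε / 20 * H₁ * (2 * N) * H) := mul_le_mul_of_nonneg_left e2 (by positivity)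
    rw [e0, e1]
    linarith
  have hfin : ∀ n : ℕ, ‖∑ h ∈ Icc 1 H, (mu (n + h) : ℂ) * F ((skew S g)^[h] (p n))‖ =
      C * ‖∑ h ∈ Icc 1 H, (mu (n + h) : ℂ) * F ((skew S g)^[h] (p n)) / C‖ := by
    intro n
    have h1 : ∑ h ∈ Icc 1 H, (mu (n + h) : ℂ) * F ((skew S g)^[h] (p n)) =
        (C : ℂ) * ∑ h ∈ Icc 1 H, (mu (n + h) : ℂ) * F ((skew S g)^[h] (p n)) / C := by
      rw [mul_sum]
      refine sum_congr rfl fun n _ => ?_
      have hC' : (C : ℂ) ≠ 0 := by exact_mod_cast hC.ne'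
      field_simp
    rw [h1, norm_mul, Complex.norm_real, Real.norm_of_nonneg hC.le]
  rw [sum_congr rfl fun n _ => hfin n, ← mul_sum]
  have h6 := mul_le_mul_of_nonneg_left hmain hC.le
  have h7 : C * (2 * (ε / 20) / C * H * N + 1 / (C * H₁) * (ε / 20 * H₁ * (2 * N) * H) + ε / (4 * C) * H * N + 2 * H₁ * N) =
      (ε / 10 + ε / 10 + ε / 4) * (H * N) + C * (2 * H₁) * N := by
    field_simp
    ring
  rw [h7] at h6
  have h8 := mul_le_mul_of_nonneg_right (hN₃ H hHN3) hN0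
  have h9 : 0 ≤ ε * (H * N) := by positivity
  nlinarith

end Pool.Agent.Lib.MP_3e612f_nt.NF
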